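import Pool.Agent.Helper63.XP.StB

/-!
# Project XP (MP_c973ff_an), module CPX: compression to the support
-/

set_option autoImplicit false

namespace Pool.Agent.Helper11.XP

open Pool.Agent.Helper63.XP

section aux

variable {I J : Type} [Fintype I] [DecidableEq I] [Fintype J] [DecidableEq J] {ι : I → J}

theorem cpx_mul_left (hι : Function.Injective ι) (A B : Matrix J J ℂ)
    (h : ∀ i k, k ∉ Set.range ι → A i k = 0) :
    (A * B).submatrix ι ι = A.submatrix ι ι * B.submatrix ι ι := by
  ext i j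
  rw [Matrix.submatrix_apply, Matrix.mul_apply, Matrix.mul_apply]
  symm
  refine Fintype.sum_of_injective ι hι _ _ ?_ (fun k => rfl)
  intro k hk
  rw [h _ k hk, zero_mul]

theorem cpx_mul_right (hι : Function.Injective ι) (A B : Matrix J J ℂ)
    (h : ∀ k j, k ∉ Set.range ι → B k j = 0) :
    (A * B).submatrix ι ι = A.submatrix ι ι * B.submatrix ι ι := by
  ext i j
  rw [Matrix.submatrix_apply, Matrix.mul_apply, Matrix.mul_apply]
  symm
  refine Fintype.sum_of_injective ι hι _ _ ?_ (fun k => rfl)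
  intro k hk
  rw [h k _ hk, mul_zero]

theorem cpx_np (hι : Function.Injective ι) (p : ℝ) (hp : 1 ≤ p) (v : I → ℂ) :
    np p (Function.extend ι v 0) = np p v := by
  unfold np
  symm
  refine Fintype.sum_of_injective ι hι _ _ ?_ (fun k => ?_)
  · intro j hj
    rw [Function.extend_apply' _ _ _ (fun h => hj h), Pi.zero_apply, norm_zero,
      Real.zero_rpow (by linarith)]
  · rw [hι.extend_apply]

theorem cpx_op (hι : Function.Injective ι) (p : ℝ) (hp : 1 ≤ p) (Y : Matrix J J ℂ) (K : ℝ)
    (h : OpLe p Y K) : OpLe p (Y.submatrix ι ι) K := by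
  intro v
  have h1 := h (Function.extend ι v 0)
  rw [cpx_np hι p hp] at h1
  refine le_trans ?_ h1
  have h2 : ∀ i, (Y.submatrix ι ι).mulVec v i = Y.mulVec (Function.extend ι v 0) (ι i) := by
    intro i
    show ∑ k, Y (ι i) (ι k) * v k = ∑ j, Y (ι i) j * (Function.extend ι v 0) j
    refine Fintype.sum_of_injective ι hι _ _ ?_ (fun k => ?_)
    · intro j hj
      rw [Function.extend_apply' _ _ _ (fun h => hj h), Pi.zero_apply, mul_zero]
    · rw [hι.extend_apply]
  unfold np
  simp only [h2]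
  have h3 : ∑ i, ‖Y.mulVec (Function.extend ι v 0) (ι i)‖ ^ p =
      ∑ j ∈ Finset.univ.image ι, ‖Y.mulVec (Function.extend ι v 0) j‖ ^ p := by
    rw [Finset.sum_image (fun a _ b _ hab => hι hab)]
  rw [h3]
  exact Finset.sum_le_sum_of_subset_of_nonneg (Finset.subset_univ _) fun _ _ _ =>
    Real.rpow_nonneg (norm_nonneg _) _

end aux

theorem hCPX : StCpx := by
  intro p I J _ _ _ _ ι X Y Z K hp hι hX hY hZ hid hex
  refine ⟨Y.submatrix ι ι, Z.submatrix ι ι, cpx_op hι p hp Y K hY, cpx_op hι p hp Z K hZ, ?_, ?_⟩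
  · have h1 : (X * Y).submatrix ι ι = X.submatrix ι ι * Y.submatrix ι ι :=
      cpx_mul_left hι X Y fun i k hk => hX i k (Or.inr hk)
    have h2 : ((X * Y) * (X * Y)).submatrix ι ι =
        (X * Y).submatrix ι ι * (X * Y).submatrix ι ι := by
      refine cpx_mul_right hι _ _ fun k j hk => ?_
      rw [Matrix.mul_apply]
      exact Finset.sum_eq_zero fun l _ => by rw [hX k l (Or.inl hk), zero_mul]
    rw [← h1, ← h2, hid]
  · have h1 : (X * Y).submatrix ι ι = X.submatrix ι ι * Y.submatrix ι ι :=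
      cpx_mul_left hι X Y fun i k hk => hX i k (Or.inr hk)
    have h2 : (X * Z).submatrix ι ι = X.submatrix ι ι * Z.submatrix ι ι :=
      cpx_mul_left hι X Z fun i k hk => hX i k (Or.inr hk)
    have h3 : (1 - X * Y).submatrix ι ι = 1 - X.submatrix ι ι * Y.submatrix ι ι := by
      rw [Matrix.submatrix_sub, ← h1, Pi.sub_apply, Pi.sub_apply, Matrix.submatrix_one ι hι]
    have h4 : ((1 - X) * Z).submatrix ι ι = (1 - X.submatrix ι ι) * Z.submatrix ι ι := by
      rw [sub_mul, one_mul, sub_mul, one_mul, ← h2, Matrix.submatrix_sub]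
      rfl
    rw [← h3, ← h4, hex]

end Pool.Agent.Helper11.XP
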